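import Pool.Agent.H8.JS.Targets

/-!
# One row of a tiling
-/

set_option autoImplicit false

namespace Pool.Agent.H34.JS

open Pool.Agent.H69.Sp Pool.Agent.H69.Mt Pool.Agent.H16.TO Pool.Agent.H8.PL Pool.Agent.H8.JS

private theorem cellC_iff {T : Type} (U : Bool → Bool → Bool → Bool → T → Prop)
    (Hh Vv : T → T → Prop) (L : ℕ) (fr lr : Bool) (w : ℕ → Option T) (pr u : ℕ → T)
    (hw : fr = false → ∀ p < L, w p = some (pr p)) :
    (∀ p, 0 ≤ p → p < 0 + L → CellC U Hh Vv fr lr w none u 0 L p) ↔
      RowC U Hh Vv L fr lr pr u := by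
  constructor
  · intro h
    refine ⟨fun x hx => ?_, fun x hx => ?_, fun hf x hx => ?_⟩
    · have h1 := (h x (Nat.zero_le _) (by omega)).1
      have e1 : (decide (pv none u 0 x = none)) = decide (x = 0) := by
        by_cases hx0 : x = 0
        · simp [pv, hx0]
        · simp [pv, hx0]
      rw [e1, Nat.zero_add] at h1
      exact h1
    · have h1 := (h (x + 1) (Nat.zero_le _) (by omega)).2.1 (u x)
      exact h1 (by simp [pv])
    · obtain ⟨v, hv, hv2⟩ := (h x (Nat.zero_le _) (by omega)).2.2 hf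
      rw [hw hf x hx] at hv
      have := Option.some.inj hv
      rw [this]
      exact hv2
  · rintro ⟨h1, h2, h3⟩ p _ hp
    refine ⟨?_, fun v hv => ?_, fun hf => ?_⟩
    · have e1 : (decide (pv none u 0 p = none)) = decide (p = 0) := by
        by_cases hx0 : p = 0
        · simp [pv, hx0]
        · simp [pv, hx0]
      rw [e1, Nat.zero_add]
      exact h1 p (by omega)
    · rcases Nat.eq_zero_or_pos p with h0 | h0
      · rw [h0] at hv
        simp [pv] at hv
      · have e2 : pv none u 0 p = some (u (p - 1)) := by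
          unfold pv
          rw [if_neg (by omega)]
        rw [e2] at hv
        have := Option.some.inj hv
        rw [← this]
        have h4 := h2 (p - 1) (by omega)
        rwa [Nat.sub_add_cancel h0] at h4
    · exact ⟨pr p, hw hf p (by omega), h3 hf p (by omega)⟩

theorem pf_c5 (hC2 : J_C2) (hC4 : J_C4) : J_C5 := by
  intro r T U Hh Vv x i c y L fr w pr hw
  have hT : Nonempty T := ⟨pr 0⟩
  have s1 : Ev (S5 (r := r) U Hh Vv x) A5 ⟨.row fr, i, c, 0, L, 0, y + 1, 0, w⟩
      ⟨.lst fr, i, c, 0, L, 0, y, 0, w⟩ 1 := by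
    refine Ev.step (fun d => ?_) (fun h => ?_)
    · exact Iff.rfl
    · exact absurd (show (Pc.row fr : Pc r T) = .acc from h) (by simp)
  have s2 : Ev (S5 (r := r) U Hh Vv x) A5 ⟨.lst fr, i, c, 0, L, 0, y, 0, w⟩
      ⟨.cel fr (decide (y = 0)) none, i, c, 0, L, 0, y, 0, w⟩ 1 := by
    refine Ev.step (fun d => ?_) (fun h => ?_)
    · exact Iff.rfl
    · exact absurd (show (Pc.lst fr : Pc r T) = .acc from h) (by simp)
  rw [s1.1, s2.1, (hC2 r T U Hh Vv x i c y fr (decide (y = 0)) L 0 w none hT)]
  refine exists_congr fun u => ?_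
  rw [cellC_iff U Hh Vv L fr (decide (y = 0)) w pr u hw]
  refine and_congr_right fun _ => ?_
  have e : (fun p => if 0 ≤ p ∧ p < 0 + L then some (u p) else w p) =
      (fun p => if p < L then some (u p) else w p) := by
    funext p
    simp
  rw [e, Nat.zero_add, (hC4 r T U Hh Vv x i c y L _).1]

end Pool.Agent.H34.JS
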