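import Pool.Agent.H8.JS.Targets
import Pool.Agent.H8.PL.Targets

/-!
# From spectra to languages
-/

set_option autoImplicit false

namespace Pool.Agent.H34.JS

open Pool.Agent.H69.Sp Pool.Agent.H69.Mt Pool.Agent.H16.TO Pool.Agent.H8.PL Pool.Agent.H8.JS

private theorem runs_mono {M : NTM} {x : List Bool} {T T' : ℕ} (h : Runs M x T) (hT : T ≤ T') :
    Runs M x T' := fun l c hc => (h l c hc).trans hT

private theorem jb_aux (hNU : J_NU) (hT3 : J_T3) (hCT : J_CT) (hB3 : J_B3) (hP5 : J_P5)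
    (hTB : J_TB) (S : Set ℕ) (r : ℕ) (Q : Type) (U : Bool → Bool → Bool → Bool → Q → Prop)
    (Hh Vv : Q → Q → Prop) (hr : 0 < r) (hQ : Finite Q) (hN : Nonempty Q)
    (hS : ∀ W H, 0 < W → 0 < H → ((∃ t, GridF U Hh Vv W H t) ↔ ∃ m ∈ S, W = m ^ r ∧ H = m ^ r)) :
    lang S ∈ NE := by
  refine ⟨12 * r + 23, by omega, tm (m5 (r := r) U Hh Vv) (1 ∈ S), fun x => ?_⟩
  by_cases hx : x = []
  · subst hx
    obtain ⟨h1, h2⟩ := hT3 (m5 (r := r) U Hh Vv) (1 ∈ S)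
    refine ⟨?_, ?_⟩
    · simpa using h2
    · rw [h1]
      show num [] ∈ S ↔ 1 ∈ S
      rw [hNU.1]
  · obtain ⟨h1, h2⟩ := hCT (m5 (r := r) U Hh Vv) (1 ∈ S) x hx
    obtain ⟨h3, h4⟩ := hB3 r Q U Hh Vv x
    obtain ⟨h5, h6⟩ := hP5 r Q U Hh Vv x hN hr
    refine ⟨?_, ?_⟩
    · exact runs_mono (h2 _ ((h4 _).mpr h6)) (hTB r x hx)
    · have hpos : 0 < num x := lt_of_lt_of_le (by positivity) (hNU.2.2.1 x).1
      rw [h1, h3, h5, hS _ _ (pow_pos hpos r) (pow_pos hpos r)]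
      show num x ∈ S ↔ _
      constructor
      · intro h
        exact ⟨num x, h, rfl, rfl⟩
      · rintro ⟨m, hm, he, -⟩
        have : num x = m := Nat.pow_left_injective (by omega) he
        rw [this]
        exact hm

theorem pf_jb (hSQ : Z_SQ) (hNU : J_NU) (hT3 : J_T3) (hCT : J_CT) (hB3 : J_B3) (hP5 : J_P5)
    (hTB : J_TB) : J_JB := by
  intro S hS
  obtain ⟨r, Q, U, Hh, Vv, hr, hQ, hs⟩ := hSQ S hS
  by_cases hN : Nonempty Q
  · exact jb_aux hNU hT3 hCT hB3 hP5 hTB S r Q U Hh Vv hr hQ hN hs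
  · refine jb_aux hNU hT3 hCT hB3 hP5 hTB S r Unit (fun _ _ _ _ _ => False) (fun _ _ => True)
      (fun _ _ => True) hr inferInstance inferInstance (fun W H hW hH => ?_)
    constructor
    · rintro ⟨t, ht, -, -⟩
      exact absurd (ht 0 hW 0 hH) id
    · intro h
      obtain ⟨t, -⟩ := (hs W H hW hH).mpr h
      exact absurd ⟨t 0 0⟩ hN

end Pool.Agent.H34.JS
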